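import Pool.Agent.H583.AR.Step

/-!
Values of products of linear forms: all pairs, of whatever height, for which few primes outside of a
finite set `K` divide the values.
-/

set_option autoImplicit false

namespace Pool.Agent.H583.AL

open Finset Pool.Agent.T2H20.ABC Pool.Agent.T2H20.AH Pool.Agent.H785R2.ABC Pool.Agent.H583.SF
  Pool.Agent.H583.WT

/-- the number of the integers with few primes outside of `K` -/
lemma ints_le (ε : ℝ) (hε : 0 < ε) : ∃ D : ℝ, 0 < D ∧ ∀ N R : ℕ, 1 ≤ N → 1 ≤ R →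
    ∀ (K : Finset ℕ) (V : Finset ℤ), (∀ v ∈ V, v ≠ 0 ∧ v.natAbs ≤ N ∧ zn K v ≤ R) →
    (V.card : ℝ) ≤ D * 2 ^ K.card * (N : ℝ) ^ ε * R := by
  classical
  obtain ⟨D, hD, h⟩ := stmtA2 ε hε
  refine ⟨2 * D, by positivity, ?_⟩
  intro N R hN hR K V hV
  have hN0 : (0 : ℝ) < N := by exact_mod_cast hN
  have hR1 : (1 : ℝ) ≤ R := by exact_mod_cast hR
  have hfib : V.card ≤ 2 * (V.image Int.natAbs).card := by
    apply Finset.card_le_mul_card_image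
    intro a ha
    have hsub : (V.filter fun v => v.natAbs = a) ⊆ {(a : ℤ), -(a : ℤ)} := by
      intro v hv
      rw [mem_filter] at hv
      rw [mem_insert, mem_singleton]
      omega
    exact (card_le_card hsub).trans Finset.card_le_two
  have h1 := (wml_om K).card_le (N := N) (K := ⌊D * (N : ℝ) ^ ε⌋₊) (Y := R) hR1 (by
    intro r
    exact Nat.le_floor (h N hN r)) (V.image Int.natAbs) (by
    intro v hv
    rw [mem_image] at hv
    obtain ⟨w, hw, rfl⟩ := hv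
    obtain ⟨g1, g2, g3⟩ := hV w hw
    refine ⟨Nat.pos_of_ne_zero (Int.natAbs_ne_zero.2 g1), g2, trivial, ?_⟩
    rw [wt_om]
    exact_mod_cast g3)
  have h2 : ((⌊D * (N : ℝ) ^ ε⌋₊ : ℕ) : ℝ) ≤ D * (N : ℝ) ^ ε := Nat.floor_le (by positivity)
  calc (V.card : ℝ) ≤ 2 * ((V.image Int.natAbs).card : ℝ) := by exact_mod_cast hfib
    _ ≤ 2 * (((⌊D * (N : ℝ) ^ ε⌋₊ : ℕ) : ℝ) * (2 ^ K.card * R)) :=
        mul_le_mul_of_nonneg_left h1 (by norm_num)
    _ ≤ 2 * ((D * (N : ℝ) ^ ε) * (2 ^ K.card * R)) := by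
        apply mul_le_mul_of_nonneg_left _ (by norm_num)
        exact mul_le_mul_of_nonneg_right h2 (by positivity)
    _ = _ := by ring

/-- the pairs of moderate height -/
theorem modW (k : ℕ) (hk : 3 ≤ k) (L : Fin k → ℤ × ℤ) (hL : ∀ i j, i ≠ j → det L i j ≠ 0)
    (M : ℕ) (hM : 1 ≤ M) (ε : ℝ) (hε : 0 < ε) : ∃ C : ℝ, 0 < C ∧ ∀ X Z : ℕ, 1 ≤ X → 1 ≤ Z →
    ∀ (K : Finset ℕ), (∀ i j, i ≠ j → (det L i j).natAbs.primeFactors ⊆ K) → ∀ Q : Finset (ℤ × ℤ),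
    (∀ p ∈ Q, IsCoprime p.1 p.2 ∧ ∏ i, val L i p ≠ 0 ∧ zr (∏ i, val L i p) ≤ X ∧
      max p.1.natAbs p.2.natAbs ≤ X ^ M ∧ zn K (∏ i, val L i p) ≤ Z) →
    (Q.card : ℝ) ≤ C * (2 ^ K.card) ^ 2 * (X : ℝ) ^ ε * (Z : ℝ) ^ (2 / (k : ℝ)) := by
  classical
  have hM0 : (0 : ℝ) < M := by exact_mod_cast hM
  obtain ⟨D, hD, hint⟩ := ints_le (ε / (4 * M)) (by positivity)
  obtain ⟨C₁, hC₁, hlog⟩ := log_bound (ε / 4) (by positivity)
  obtain ⟨Δ, hΔ, hΔ1, hΔ2, hΔ3⟩ := exists_const L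
  have hk0 : (0 : ℝ) < k := by have : 0 < k := by omega
                               exact_mod_cast this
  have hΔr : (0 : ℝ) < Δ := by exact_mod_cast hΔ
  refine ⟨(k : ℝ) ^ 2 * C₁ ^ 2 * (D ^ 2 * ((2 * Δ : ℝ) ^ (ε / (4 * M))) ^ 2 * 4), by positivity, ?_⟩
  intro X Z hX hZ K hK Q hQ
  obtain ⟨G, hG⟩ : ∃ G : ℝ, G = 2 ^ K.card := ⟨_, rfl⟩
  rw [← hG]
  have hG1 : 1 ≤ G := by rw [hG]; exact one_le_pow₀ (by norm_num)
  have hG0 : 0 ≤ G := by linarith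
  have hZ1 : (1 : ℝ) ≤ Z := by exact_mod_cast hZ
  have hX1 : (1 : ℝ) ≤ X := by exact_mod_cast hX
  have hX0 : (0 : ℝ) < X := by linarith
  have vne : ∀ p ∈ Q, ∀ i, val L i p ≠ 0 := fun p hp i =>
    (Finset.prod_ne_zero_iff.1 (hQ p hp).2.1) i (Finset.mem_univ _)
  -- the size of the values
  obtain ⟨Y, hY⟩ : ∃ Y, Y = 2 * Δ * X ^ M := ⟨_, rfl⟩
  have hY1 : 1 ≤ Y := by
    rw [hY]
    exact Nat.mul_pos (by omega) (Nat.one_le_pow _ _ hX)
  have hval : ∀ p ∈ Q, ∀ i, (val L i p).natAbs ≤ Y := by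
    intro p hp i
    have h1 := (hQ p hp).2.2.2.1
    have h2 : (val L i p).natAbs ≤ (L i).1.natAbs * p.1.natAbs + (L i).2.natAbs * p.2.natAbs := by
      unfold SF.val
      rw [← Int.natAbs_mul, ← Int.natAbs_mul]
      exact Int.natAbs_add_le _ _
    have h3 := hΔ3 i
    rw [hY]
    calc (val L i p).natAbs ≤ (L i).1.natAbs * p.1.natAbs + (L i).2.natAbs * p.2.natAbs := h2
      _ ≤ Δ * X ^ M + Δ * X ^ M := by
          apply Nat.add_le_add
          · exact Nat.mul_le_mul h3.1 ((le_max_left _ _).trans h1)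
          · exact Nat.mul_le_mul h3.2 ((le_max_right _ _).trans h1)
      _ = 2 * Δ * X ^ M := by ring
  -- the boxes
  set N := Nat.log 2 X + 2 with hN
  set box : Fin k × Fin k × ℕ × ℕ → Finset (ℤ × ℤ) := fun t =>
    Q.filter (fun p => t.1 ≠ t.2.1 ∧ zn K (val L t.1 p) ≤ 2 ^ t.2.2.1 ∧
      zn K (val L t.2.1 p) ≤ 2 ^ t.2.2.2 ∧
      (2 ^ (t.2.2.1 + t.2.2.2)) ^ k ≤ 4 ^ k * Z ^ 2) with hbox
  have hcover : Q ⊆ ((Finset.univ : Finset (Fin k)) ×ˢ (Finset.univ : Finset (Fin k)) ×ˢ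
      (Finset.range N) ×ˢ (Finset.range N)).biUnion box := by
    intro p hpQ
    obtain ⟨p1, p2, p3, p4, p5⟩ := hQ p hpQ
    have hprod2 : ∏ i, zn K (val L i p) ≤ Z := by
      rw [prod_zn hK hL p1 (vne p hpQ)]
      exact p5
    obtain ⟨i, j, hij, hrr⟩ := exists_pair (by omega) (fun i => zn K (val L i p))
      (fun i => zn_pos _ _) Z hprod2
    obtain ⟨s, s1, s2, s3⟩ := dyadic (zn_pos K (val L i p))
    obtain ⟨t, t1, t2, t3⟩ := dyadic (zn_pos K (val L j p))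
    have hle : ∀ i, zn K (val L i p) ≤ X := fun i =>
      (zn_le_zr K _).trans ((zr_le_of_dvd p2 (Finset.dvd_prod_of_mem _ (Finset.mem_univ _))).trans p3)
    have hlogle : ∀ i, Nat.log 2 (zn K (val L i p)) + 1 < N := by
      intro i
      have := Nat.log_mono_right (b := 2) (hle i)
      omega
    rw [Finset.mem_biUnion]
    refine ⟨(i, j, s, t), ?_, ?_⟩
    · simp only [Finset.mem_product, Finset.mem_univ, Finset.mem_range, true_and]
      rw [s3, t3]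
      exact ⟨hlogle i, hlogle j⟩
    · rw [hbox]
      refine Finset.mem_filter.2 ⟨hpQ, hij, s1, t1, ?_⟩
      show (2 ^ (s + t)) ^ k ≤ 4 ^ k * Z ^ 2
      calc (2 ^ (s + t)) ^ k = (2 ^ s * 2 ^ t) ^ k := by rw [pow_add]
        _ ≤ ((2 * zn K (val L i p)) * (2 * zn K (val L j p))) ^ k :=
            Nat.pow_le_pow_left (Nat.mul_le_mul s2 t2) _
        _ = 4 ^ k * (zn K (val L i p) * zn K (val L j p)) ^ k := by rw [← mul_pow]; ring
        _ ≤ 4 ^ k * Z ^ 2 := Nat.mul_le_mul_left _ hrr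
  obtain ⟨W, hW⟩ : ∃ W, W = (Z : ℝ) ^ (2 / (k : ℝ)) := ⟨_, rfl⟩
  rw [← hW]
  have hW1 : 1 ≤ W := by rw [hW]; exact Real.one_le_rpow hZ1 (by positivity)
  have hYe : ((Y : ℝ) ^ (ε / (4 * M))) ^ 2 = ((2 * Δ : ℝ) ^ (ε / (4 * M))) ^ 2 * (X : ℝ) ^ (ε / 2) := by
    have e1 : (Y : ℝ) = (2 * Δ) * (X : ℝ) ^ (M : ℝ) := by
      rw [hY, Real.rpow_natCast]
      push_cast
      ring
    rw [e1, Real.mul_rpow (by positivity) (by positivity), mul_pow, ← Real.rpow_mul hX0.le,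
      ← Real.rpow_natCast ((X : ℝ) ^ _) 2, ← Real.rpow_mul hX0.le]
    congr 2
    push_cast
    field_simp
    norm_num
  have hB : ∀ t ∈ ((Finset.univ : Finset (Fin k)) ×ˢ (Finset.univ : Finset (Fin k)) ×ˢ
      (Finset.range N) ×ˢ (Finset.range N)), ((box t).card : ℝ) ≤
      D ^ 2 * G ^ 2 * (((2 * Δ : ℝ) ^ (ε / (4 * M))) ^ 2 * (X : ℝ) ^ (ε / 2)) * (4 * W) := by
    rintro ⟨i, j, s, t⟩ -
    rcases (box (i, j, s, t)).eq_empty_or_nonempty with h | ⟨p0, hp0⟩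
    · rw [h, Finset.card_empty, Nat.cast_zero]
      have : 0 ≤ W := by linarith
      positivity
    rw [hbox] at hp0
    obtain ⟨-, hij, -, -, hst⟩ := Finset.mem_filter.1 hp0
    have dij := hL i j hij
    have hmem : ∀ p ∈ box (i, j, s, t), p ∈ Q ∧ zn K (val L i p) ≤ 2 ^ s ∧
        zn K (val L j p) ≤ 2 ^ t := by
      intro p hp
      rw [hbox] at hp
      obtain ⟨h1, -, h2, h3, -⟩ := Finset.mem_filter.1 hp
      exact ⟨h1, h2, h3⟩
    have c1 := hint Y (2 ^ s) hY1 Nat.one_le_two_pow K ((box (i, j, s, t)).image fun p => val L i p) (by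
      intro v hv
      rw [mem_image] at hv
      obtain ⟨p, hp, rfl⟩ := hv
      obtain ⟨g1, g2, g3⟩ := hmem p hp
      exact ⟨vne p g1 i, hval p g1 i, g2⟩)
    have c2 := hint Y (2 ^ t) hY1 Nat.one_le_two_pow K ((box (i, j, s, t)).image fun p => val L j p) (by
      intro v hv
      rw [mem_image] at hv
      obtain ⟨p, hp, rfl⟩ := hv
      obtain ⟨g1, g2, g3⟩ := hmem p hp
      exact ⟨vne p g1 j, hval p g1 j, g3⟩)
    rw [← hG] at c1 c2
    have c3 : (box (i, j, s, t)).card ≤ ((box (i, j, s, t)).image fun p => val L i p).card *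
        ((box (i, j, s, t)).image fun p => val L j p).card := by
      rw [← card_product]
      apply card_le_card_of_injOn (fun p => (val L i p, val L j p))
      · intro p hp
        rw [mem_coe, mem_product]
        exact ⟨mem_image_of_mem _ hp, mem_image_of_mem _ hp⟩
      · intro p _ q _ hpq
        simp only [Prod.mk.injEq] at hpq
        have e3 : p.1 = q.1 := mul_left_cancel₀ dij (by rw [cramer1, cramer1, hpq.1, hpq.2])
        have e4 : p.2 = q.2 := mul_left_cancel₀ dij (by rw [cramer2, cramer2, hpq.1, hpq.2])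
        exact Prod.ext e3 e4
    have hx : (((2 ^ s : ℕ) : ℝ) * ((2 ^ t : ℕ) : ℝ)) ≤ 4 * W := by
      have h2 : ((((2 ^ s : ℕ) : ℝ) * ((2 ^ t : ℕ) : ℝ))) ^ k ≤ (4 * W) ^ k := by
        rw [mul_pow 4, hW, ← Real.rpow_natCast ((Z : ℝ) ^ (2 / (k : ℝ))),
          ← Real.rpow_mul (by positivity), div_mul_cancel₀ _ hk0.ne']
        have h3 : (((2 ^ (s + t)) ^ k : ℕ) : ℝ) ≤ ((4 ^ k * Z ^ 2 : ℕ) : ℝ) := by
          exact_mod_cast hst
        push_cast at h3 ⊢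
        rw [show (2 : ℝ) ^ s = 2 ^ s from rfl, ← pow_add]
        refine h3.trans (le_of_eq ?_)
        rw [show (Z : ℝ) ^ (2 : ℝ) = (Z : ℝ) ^ (2 : ℕ) from by
          rw [← Real.rpow_natCast]; norm_num]
      exact le_of_pow_le_pow_left₀ (by omega) (by linarith) h2
    calc ((box (i, j, s, t)).card : ℝ) ≤
          ((((box (i, j, s, t)).image fun p => val L i p).card *
            ((box (i, j, s, t)).image fun p => val L j p).card : ℕ) : ℝ) := by exact_mod_cast c3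
      _ = (((box (i, j, s, t)).image fun p => val L i p).card : ℝ) *
            (((box (i, j, s, t)).image fun p => val L j p).card : ℝ) := by push_cast; ring
      _ ≤ (D * G * (Y : ℝ) ^ (ε / (4 * M)) * ((2 ^ s : ℕ) : ℝ)) *
            (D * G * (Y : ℝ) ^ (ε / (4 * M)) * ((2 ^ t : ℕ) : ℝ)) := by
          apply mul_le_mul c1 c2 (Nat.cast_nonneg _)
          positivity
      _ = D ^ 2 * G ^ 2 * ((Y : ℝ) ^ (ε / (4 * M))) ^ 2 * (((2 ^ s : ℕ) : ℝ) * ((2 ^ t : ℕ) : ℝ)) := by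
          ring
      _ ≤ D ^ 2 * G ^ 2 * ((Y : ℝ) ^ (ε / (4 * M))) ^ 2 * (4 * W) :=
          mul_le_mul_of_nonneg_left hx (by positivity)
      _ = _ := by rw [hYe]
  have b2 : (Q.card : ℝ) ≤ (k : ℝ) ^ 2 * (N : ℝ) ^ 2 *
      (D ^ 2 * G ^ 2 * (((2 * Δ : ℝ) ^ (ε / (4 * M))) ^ 2 * (X : ℝ) ^ (ε / 2)) * (4 * W)) := by
    calc (Q.card : ℝ) ≤ ((((Finset.univ : Finset (Fin k)) ×ˢ (Finset.univ : Finset (Fin k)) ×ˢ
          (Finset.range N) ×ˢ (Finset.range N)).biUnion box).card : ℝ) := by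
          exact_mod_cast Finset.card_le_card hcover
      _ ≤ ∑ t ∈ ((Finset.univ : Finset (Fin k)) ×ˢ (Finset.univ : Finset (Fin k)) ×ˢ
          (Finset.range N) ×ˢ (Finset.range N)), ((box t).card : ℝ) := by
          exact_mod_cast Finset.card_biUnion_le
      _ ≤ ∑ _t ∈ ((Finset.univ : Finset (Fin k)) ×ˢ (Finset.univ : Finset (Fin k)) ×ˢ
          (Finset.range N) ×ˢ (Finset.range N)),
          (D ^ 2 * G ^ 2 * (((2 * Δ : ℝ) ^ (ε / (4 * M))) ^ 2 * (X : ℝ) ^ (ε / 2)) * (4 * W)) :=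
          Finset.sum_le_sum hB
      _ = _ := by
          rw [Finset.sum_const, nsmul_eq_mul, Finset.card_product, Finset.card_product,
            Finset.card_product, Finset.card_range, Finset.card_univ, Fintype.card_fin]
          push_cast
          ring
  have hNle : (N : ℝ) ≤ C₁ * (X : ℝ) ^ (ε / 4) := hlog X hX
  have hNN : (N : ℝ) ^ 2 ≤ C₁ ^ 2 * (X : ℝ) ^ (ε / 2) := by
    calc (N : ℝ) ^ 2 ≤ (C₁ * (X : ℝ) ^ (ε / 4)) ^ 2 := pow_le_pow_left₀ (Nat.cast_nonneg _) hNle 2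
      _ = C₁ ^ 2 * (X : ℝ) ^ (ε / 2) := by
        rw [mul_pow, ← Real.rpow_natCast ((X : ℝ) ^ (ε / 4)), ← Real.rpow_mul hX0.le]
        congr 2
        push_cast; ring
  have hW0 : 0 ≤ W := by linarith
  calc (Q.card : ℝ) ≤ (k : ℝ) ^ 2 * (N : ℝ) ^ 2 *
      (D ^ 2 * G ^ 2 * (((2 * Δ : ℝ) ^ (ε / (4 * M))) ^ 2 * (X : ℝ) ^ (ε / 2)) * (4 * W)) := b2
    _ ≤ (k : ℝ) ^ 2 * (C₁ ^ 2 * (X : ℝ) ^ (ε / 2)) *
      (D ^ 2 * G ^ 2 * (((2 * Δ : ℝ) ^ (ε / (4 * M))) ^ 2 * (X : ℝ) ^ (ε / 2)) * (4 * W)) := by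
        apply mul_le_mul_of_nonneg_right _ (by positivity)
        exact mul_le_mul_of_nonneg_left hNN (by positivity)
    _ = (k : ℝ) ^ 2 * C₁ ^ 2 * (D ^ 2 * ((2 * Δ : ℝ) ^ (ε / (4 * M))) ^ 2 * 4) * G ^ 2 *
          ((X : ℝ) ^ (ε / 2) * (X : ℝ) ^ (ε / 2)) * W := by ring
    _ = _ := by
        rw [← Real.rpow_add hX0]
        congr 3
        ring

/-- **all pairs, few primes outside of a finite set `K`** -/
theorem allW (k : ℕ) (hk : 3 ≤ k) (L : Fin k → ℤ × ℤ) (hL : ∀ i j, i ≠ j → det L i j ≠ 0)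
    (ε : ℝ) (hε : 0 < ε) : ∃ m : ℕ, ∃ C : ℝ, 0 < C ∧ ∀ X Z : ℕ, 1 ≤ X → 1 ≤ Z →
    ∀ (K : Finset ℕ), (∀ i j, i ≠ j → (det L i j).natAbs.primeFactors ⊆ K) → ∀ Q : Finset (ℤ × ℤ),
    (∀ p ∈ Q, IsCoprime p.1 p.2 ∧ ∏ i, val L i p ≠ 0 ∧ zr (∏ i, val L i p) ≤ X ∧
      zn K (∏ i, val L i p) ≤ Z) →
    (Q.card : ℝ) ≤ C * (2 ^ K.card) ^ m * (X : ℝ) ^ ε * (Z : ℝ) ^ (2 / (k : ℝ)) := by
  classical
  obtain ⟨M, m, C, hM, hC, h⟩ := formsW k hk L hL ε hε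
  obtain ⟨C', hC', h'⟩ := modW k hk L hL M hM ε hε
  refine ⟨m + 2, C + C', by positivity, ?_⟩
  intro X Z hX hZ K hK Q hQ
  have hX1 : (1 : ℝ) ≤ X := by exact_mod_cast hX
  have hZ1 : (1 : ℝ) ≤ Z := by exact_mod_cast hZ
  have hk0 : (0 : ℝ) < k := by have : 0 < k := by omega
                               exact_mod_cast this
  set Q1 := Q.filter fun p => zr (∏ i, val L i p) ^ M ≤ max p.1.natAbs p.2.natAbs with hQ1
  set Q2 := Q.filter fun p => ¬ zr (∏ i, val L i p) ^ M ≤ max p.1.natAbs p.2.natAbs with hQ2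
  have hsplit : Q.card = Q1.card + Q2.card := (Finset.card_filter_add_card_filter_not _).symm
  have b1 := h X Z hX hZ K hK Q1 (by
    intro p hp
    rw [hQ1, mem_filter] at hp
    obtain ⟨g1, g2, g3, g4⟩ := hQ p hp.1
    exact ⟨g1, g2, g3, hp.2, g4⟩)
  have b2 := h' X Z hX hZ K hK Q2 (by
    intro p hp
    rw [hQ2, mem_filter, not_le] at hp
    obtain ⟨g1, g2, g3, g4⟩ := hQ p hp.1
    exact ⟨g1, g2, g3, hp.2.le.trans (Nat.pow_le_pow_left g3 M), g4⟩)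
  obtain ⟨G, hG⟩ : ∃ G : ℝ, G = 2 ^ K.card := ⟨_, rfl⟩
  rw [← hG] at b1 b2 ⊢
  have hG1 : 1 ≤ G := by rw [hG]; exact one_le_pow₀ (by norm_num)
  have hG0 : 0 ≤ G := by linarith
  have e1 : (Z : ℝ) ^ (1 / (k : ℝ)) ≤ (Z : ℝ) ^ (2 / (k : ℝ)) := by
    apply Real.rpow_le_rpow_of_exponent_le hZ1
    gcongr
    norm_num
  have e2 : G ^ m ≤ G ^ (m + 2) := pow_le_pow_right₀ hG1 (by omega)
  have e3 : G ^ 2 ≤ G ^ (m + 2) := pow_le_pow_right₀ hG1 (by omega)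
  calc (Q.card : ℝ) = (Q1.card : ℝ) + (Q2.card : ℝ) := by exact_mod_cast hsplit
    _ ≤ C * G ^ m * (X : ℝ) ^ ε * (Z : ℝ) ^ (1 / (k : ℝ)) +
        C' * G ^ 2 * (X : ℝ) ^ ε * (Z : ℝ) ^ (2 / (k : ℝ)) := add_le_add b1 b2
    _ ≤ C * G ^ (m + 2) * (X : ℝ) ^ ε * (Z : ℝ) ^ (2 / (k : ℝ)) +
        C' * G ^ (m + 2) * (X : ℝ) ^ ε * (Z : ℝ) ^ (2 / (k : ℝ)) := by
        apply add_le_add
        · apply mul_le_mul _ e1 (by positivity) (by positivity)
          apply mul_le_mul_of_nonneg_right _ (by positivity)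
          exact mul_le_mul_of_nonneg_left e2 hC.le
        · apply mul_le_mul_of_nonneg_right _ (by positivity)
          apply mul_le_mul_of_nonneg_right _ (by positivity)
          exact mul_le_mul_of_nonneg_left e3 hC'.le
    _ = _ := by ring

end Pool.Agent.H583.AL
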