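import Pool.Agent.H583.AL.A

/-!
Sequences of pairs of integers such that few primes divide the values of the forms.
-/

set_option autoImplicit false

namespace Pool.Agent.H583.AL

open Finset Pool.Agent.T2H20.ABC Pool.Agent.T2H20.AH Pool.Agent.H785R2.ABC Pool.Agent.H583.SF
  Pool.Agent.H583.WT

section

variable {k : ℕ}

/-- the product of the values of the forms -/
def fp (F : Fin k → ℤ × ℤ) (p : ℤ × ℤ) : ℤ := ∏ a, SF.val F a p

/-- the bad primes of a sequence -/
def bs (S : Finset ℕ) (F : ℕ → Fin k → ℤ × ℤ) {N : ℕ} (s : Fin N → ℤ × ℤ) : Finset ℕ :=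
  univ.biUnion fun m : Fin N => (fp (F m) (s m)).natAbs.primeFactors \ S

/-- the product of the bad primes -/
def Rs (S : Finset ℕ) (F : ℕ → Fin k → ℤ × ℤ) {N : ℕ} (s : Fin N → ℤ × ℤ) : ℕ := ∏ p ∈ bs S F s, p

lemma bs_prime {S : Finset ℕ} {F : ℕ → Fin k → ℤ × ℤ} {N : ℕ} {s : Fin N → ℤ × ℤ} {p : ℕ}
    (h : p ∈ bs S F s) : p.Prime := by
  obtain ⟨m, -, h⟩ := mem_biUnion.1 h
  exact Nat.prime_of_mem_primeFactors (mem_sdiff.1 h).1

lemma bs_disj {S : Finset ℕ} {F : ℕ → Fin k → ℤ × ℤ} {N : ℕ} {s : Fin N → ℤ × ℤ} :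
    Disjoint S (bs S F s) := by
  rw [Finset.disjoint_left]
  intro p hp hp'
  obtain ⟨m, -, h⟩ := mem_biUnion.1 hp'
  exact (mem_sdiff.1 h).2 hp

lemma Rs_pos (S : Finset ℕ) (F : ℕ → Fin k → ℤ × ℤ) {N : ℕ} (s : Fin N → ℤ × ℤ) : 0 < Rs S F s :=
  Finset.prod_pos fun _ hp => (bs_prime hp).pos

lemma bs_succ (S : Finset ℕ) (F : ℕ → Fin k → ℤ × ℤ) {N : ℕ} (s : Fin (N + 1) → ℤ × ℤ) :
    bs S F s = bs S F (Fin.init s) ∪ (fp (F N) (s (Fin.last N))).natAbs.primeFactors \ S := by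
  ext p
  unfold bs
  rw [mem_union]
  simp only [mem_biUnion, mem_univ, true_and]
  rw [Fin.exists_fin_succ']
  exact Iff.rfl

lemma Rs_succ (S : Finset ℕ) (F : ℕ → Fin k → ℤ × ℤ) {N : ℕ} (s : Fin (N + 1) → ℤ × ℤ) :
    Rs S F s = Rs S F (Fin.init s) *
      zn (S ∪ bs S F (Fin.init s)) (fp (F N) (s (Fin.last N))) := by
  classical
  unfold Rs zn nr
  rw [bs_succ, ← Finset.prod_sdiff (s₁ := bs S F (Fin.init s)) subset_union_left, mul_comm]
  congr 1
  apply Finset.prod_congr _ fun _ _ => rfl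
  ext p
  simp only [mem_sdiff, mem_union]
  tauto

lemma zr_last (S : Finset ℕ) (F : ℕ → Fin k → ℤ × ℤ) {N : ℕ} (s : Fin (N + 1) → ℤ × ℤ)
    (hS : ∀ p ∈ S, p.Prime) : zr (fp (F N) (s (Fin.last N))) ≤ (∏ p ∈ S, p) * Rs S F s := by
  classical
  unfold zr rad Rs
  rw [← Finset.prod_union bs_disj]
  apply Finset.prod_le_prod_of_subset_of_one_le'
  · intro p hp
    rw [mem_union]
    by_cases hpS : p ∈ S
    · exact Or.inl hpS
    · right
      rw [bs_succ, mem_union, mem_sdiff]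
      exact Or.inr ⟨hp, hpS⟩
  · intro p hp _
    rcases mem_union.1 hp with h | h
    · exact (hS p h).one_lt.le
    · exact (bs_prime h).one_lt.le

end

open Classical in
/-- **sequences** -/
theorem seqs (k : ℕ) (hk : 3 ≤ k) (F : ℕ → Fin k → ℤ × ℤ) (S : Finset ℕ)
    (hS : ∀ p ∈ S, p.Prime) (N : ℕ) (hF : ∀ m < N, ∀ a b, a ≠ b → det (F m) a b ≠ 0)
    (hd : ∀ m < N, ∀ a b, a ≠ b → (det (F m) a b).natAbs.primeFactors ⊆ S) :
    ∀ ε : ℝ, 0 < ε → ∃ C : ℝ, 0 < C ∧ ∀ X : ℕ, 1 ≤ X → ∀ Q : Finset (Fin N → ℤ × ℤ),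
    (∀ s ∈ Q, (∀ m, IsCoprime (s m).1 (s m).2 ∧ fp (F m) (s m) ≠ 0) ∧ Rs S F s ≤ X) →
    (Q.card : ℝ) ≤ C * (X : ℝ) ^ (2 / (k : ℝ) + ε) := by
  have hk0 : (0 : ℝ) < k := by
    have : 0 < k := by omega
    exact_mod_cast this
  induction N with
  | zero =>
    intro ε hε
    refine ⟨1, one_pos, ?_⟩
    intro X hX Q _
    have hX1 : (1 : ℝ) ≤ X := by exact_mod_cast hX
    have h1 : Q.card ≤ 1 := card_le_one.2 fun a _ b _ => Subsingleton.elim a b
    have h2 : (Q.card : ℝ) ≤ 1 := by exact_mod_cast h1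
    rw [one_mul]
    exact h2.trans (Real.one_le_rpow hX1 (by positivity))
  | succ N ih =>
    intro ε hε
    obtain ⟨C₀, hC₀, h0⟩ := ih (fun m hm => hF m (by omega)) (fun m hm => hd m (by omega)) (ε / 4)
      (by positivity)
    obtain ⟨m, C, hC, h⟩ := allW k hk (F N) (hF N (Nat.lt_succ_self N)) (ε / 4) (by positivity)
    obtain ⟨D, hD, hpow⟩ := Pool.Agent.H583.AR.two_pow_card m (ε / 4) (by positivity)
    obtain ⟨C₁, hC₁, hlog⟩ := log_bound (ε / 4) (by positivity)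
    obtain ⟨P, hP⟩ : ∃ P, P = ∏ p ∈ S, p := ⟨_, rfl⟩
    have hP1 : 1 ≤ P := by rw [hP]; exact Finset.prod_pos fun p hp => (hS p hp).pos
    have hPr : (0 : ℝ) < P := by exact_mod_cast hP1
    obtain ⟨E, hE⟩ : ∃ E : ℝ, E = C * (((2 : ℝ) ^ S.card) ^ m * D) * (P : ℝ) ^ (ε / 4) := ⟨_, rfl⟩
    have hE0 : 0 < E := by rw [hE]; positivity
    refine ⟨C₁ * (C₀ * 2 ^ (2 / (k : ℝ) + ε / 4) * E), by positivity, ?_⟩
    intro X hX Q hQ
    have hX1 : (1 : ℝ) ≤ X := by exact_mod_cast hX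
    have hX0 : (0 : ℝ) < X := by linarith
    obtain ⟨B, hB⟩ : ∃ B : ℝ, B = (C₀ * 2 ^ (2 / (k : ℝ) + ε / 4) * E) *
      (X : ℝ) ^ (2 / (k : ℝ) + 3 * ε / 4) := ⟨_, rfl⟩
    have hB0 : 0 ≤ B := by rw [hB]; positivity
    have hcov := card_le_of_cover Q (range (Nat.log 2 X + 1))
      (fun j s => j = Nat.log 2 (Rs S F (Fin.init s))) B (by
        intro s hs
        refine ⟨_, ?_, rfl⟩
        rw [mem_range]
        apply Nat.lt_succ_of_le
        apply Nat.log_mono_right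
        refine le_trans ?_ (hQ s hs).2
        rw [Rs_succ S F s]
        exact Nat.le_mul_of_pos_right _ (zn_pos _ _)) (by
      intro j _
      set Q' := Q.filter fun s => j = Nat.log 2 (Rs S F (Fin.init s)) with hQ'
      rcases Q'.eq_empty_or_nonempty with he | ⟨s0, hs0⟩
      · rw [he, card_empty, Nat.cast_zero]
        exact hB0
      have hmem : ∀ s ∈ Q', s ∈ Q ∧ 2 ^ j ≤ Rs S F (Fin.init s) ∧
          Rs S F (Fin.init s) ≤ 2 ^ (j + 1) := by
        intro s hs
        rw [hQ', mem_filter] at hs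
        refine ⟨hs.1, ?_, ?_⟩
        · rw [hs.2]
          exact Nat.pow_log_le_self 2 (Rs_pos _ _ _).ne'
        · rw [hs.2]
          exact (Nat.lt_pow_succ_log_self (by norm_num) _).le
      have hjX : 2 ^ j ≤ X := by
        obtain ⟨g1, g2, -⟩ := hmem s0 hs0
        refine g2.trans (le_trans ?_ (hQ s0 g1).2)
        rw [Rs_succ S F s0]
        exact Nat.le_mul_of_pos_right _ (zn_pos _ _)
      obtain ⟨Z, hZ⟩ : ∃ Z, Z = X / 2 ^ j := ⟨_, rfl⟩
      have hZ1 : 1 ≤ Z := by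
        rw [hZ]
        exact Nat.div_pos hjX (by positivity)
      have hZX : (Z : ℝ) * (2 : ℝ) ^ j ≤ X := by
        have : Z * 2 ^ j ≤ X := by rw [hZ]; exact Nat.div_mul_le_self X (2 ^ j)
        exact_mod_cast this
      -- the prefixes
      have hpre := h0 (2 ^ (j + 1)) Nat.one_le_two_pow (Q'.image Fin.init) (by
        intro s' hs'
        rw [mem_image] at hs'
        obtain ⟨s, hs, rfl⟩ := hs'
        obtain ⟨g1, g2, g3⟩ := hmem s hs
        refine ⟨?_, g3⟩
        intro m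
        have := (hQ s g1).1 m.castSucc
        exact this)
      -- the fibres
      have hfib : ∀ s' ∈ Q'.image Fin.init, (((Q'.filter fun s => Fin.init s = s').card : ℕ) : ℝ) ≤
          E * (X : ℝ) ^ (ε / 2) * (Z : ℝ) ^ (2 / (k : ℝ)) := by
        intro s' hs'
        rw [mem_image] at hs'
        obtain ⟨s1, hs1, rfl⟩ := hs'
        obtain ⟨V, hV⟩ : ∃ V, V = (Q'.filter fun s => Fin.init s = Fin.init s1).image
          (fun s => s (Fin.last N)) := ⟨_, rfl⟩
        have hcard : (Q'.filter fun s => Fin.init s = Fin.init s1).card = V.card := by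
          rw [hV]
          symm
          apply card_image_of_injOn
          intro s hs t ht hst
          rw [mem_coe, mem_filter] at hs ht
          simp only at hst
          rw [← Fin.snoc_init_self s, ← Fin.snoc_init_self t, hs.2, ht.2, hst]
        rw [hcard]
        obtain ⟨K, hK⟩ : ∃ K, K = bs S F (Fin.init s1) := ⟨_, rfl⟩
        have hRX : ∏ p ∈ K, p ≤ X := by
          obtain ⟨g1, -, -⟩ := hmem s1 hs1
          have := (hQ s1 g1).2
          rw [Rs_succ S F s1] at this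
          rw [hK]
          exact (Nat.le_mul_of_pos_right _ (zn_pos _ _)).trans this
        have hKp : ∀ p ∈ K, p.Prime := fun p hp => by rw [hK] at hp; exact bs_prime hp
        have h1 := h (P * X) Z (Nat.mul_pos hP1 hX) hZ1 (S ∪ K) (by
          intro a b hab
          exact (hd N (Nat.lt_succ_self N) a b hab).trans subset_union_left) V (by
          intro p hp
          rw [hV, mem_image] at hp
          obtain ⟨s, hs, rfl⟩ := hp
          rw [mem_filter] at hs
          obtain ⟨g1, g2, g3⟩ := hmem s hs.1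
          obtain ⟨e1, e2⟩ := hQ s g1
          have e3 := e1 (Fin.last N)
          rw [Fin.val_last] at e3
          refine ⟨e3.1, e3.2, ?_, ?_⟩
          · refine (zr_last S F s hS).trans ?_
            rw [hP]
            exact Nat.mul_le_mul_left _ e2
          · rw [hK, ← hs.2, hZ, Nat.le_div_iff_mul_le (by positivity)]
            refine le_trans ?_ e2
            rw [Rs_succ S F s, mul_comm]
            exact Nat.mul_le_mul_right _ g2)
        have hcardU : (((2 : ℝ) ^ (S ∪ K).card)) ^ m ≤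
            ((2 : ℝ) ^ S.card) ^ m * (D * (X : ℝ) ^ (ε / 4)) := by
          calc (((2 : ℝ) ^ (S ∪ K).card)) ^ m ≤ ((2 : ℝ) ^ (S.card + K.card)) ^ m := by
                apply pow_le_pow_left₀ (by positivity)
                exact pow_le_pow_right₀ (by norm_num) (card_union_le S K)
            _ = ((2 : ℝ) ^ S.card) ^ m * ((2 : ℝ) ^ K.card) ^ m := by rw [pow_add, mul_pow]
            _ ≤ _ := mul_le_mul_of_nonneg_left (hpow X K hKp hRX) (by positivity)
        have hXs : (((P * X : ℕ) : ℝ)) ^ (ε / 4) = (P : ℝ) ^ (ε / 4) * (X : ℝ) ^ (ε / 4) := by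
          rw [Nat.cast_mul, Real.mul_rpow hPr.le hX0.le]
        calc (V.card : ℝ) ≤ C * (2 ^ (S ∪ K).card) ^ m * ((P * X : ℕ) : ℝ) ^ (ε / 4) *
              (Z : ℝ) ^ (2 / (k : ℝ)) := h1
          _ ≤ C * (((2 : ℝ) ^ S.card) ^ m * (D * (X : ℝ) ^ (ε / 4))) *
              ((P : ℝ) ^ (ε / 4) * (X : ℝ) ^ (ε / 4)) * (Z : ℝ) ^ (2 / (k : ℝ)) := by
              rw [hXs]
              apply mul_le_mul_of_nonneg_right _ (by positivity)
              apply mul_le_mul_of_nonneg_right _ (by positivity)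
              exact mul_le_mul_of_nonneg_left hcardU hC.le
          _ = E * ((X : ℝ) ^ (ε / 4) * (X : ℝ) ^ (ε / 4)) * (Z : ℝ) ^ (2 / (k : ℝ)) := by
              rw [hE]; ring
          _ = _ := by
              rw [← Real.rpow_add hX0]
              congr 3
              ring
      have hsum : (Q'.card : ℝ) ≤ ((Q'.image Fin.init).card : ℝ) *
          (E * (X : ℝ) ^ (ε / 2) * (Z : ℝ) ^ (2 / (k : ℝ))) := by
        rw [Finset.card_eq_sum_card_fiberwise (f := Fin.init) (t := Q'.image Fin.init) (by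
          intro s hs
          rw [mem_coe]
          exact mem_image_of_mem _ hs)]
        push_cast
        refine (Finset.sum_le_sum hfib).trans ?_
        rw [Finset.sum_const, nsmul_eq_mul]
      have e1 : (((2 ^ (j + 1) : ℕ)) : ℝ) ^ (2 / (k : ℝ) + ε / 4) =
          2 ^ (2 / (k : ℝ) + ε / 4) * (((2 : ℝ) ^ j) ^ (2 / (k : ℝ)) * ((2 : ℝ) ^ j) ^ (ε / 4)) := by
        rw [← Real.rpow_add (by positivity), ← Real.mul_rpow (by norm_num) (by positivity)]
        congr 1
        push_cast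
        ring
      have e2 : ((2 : ℝ) ^ j) ^ (2 / (k : ℝ)) * (Z : ℝ) ^ (2 / (k : ℝ)) ≤ (X : ℝ) ^ (2 / (k : ℝ)) := by
        rw [← Real.mul_rpow (by positivity) (Nat.cast_nonneg _)]
        apply Real.rpow_le_rpow (by positivity) _ (by positivity)
        rw [mul_comm]
        exact hZX
      have e3 : ((2 : ℝ) ^ j) ^ (ε / 4) ≤ (X : ℝ) ^ (ε / 4) := by
        apply Real.rpow_le_rpow (by positivity) _ (by positivity)
        exact_mod_cast hjX
      calc (Q'.card : ℝ) ≤ ((Q'.image Fin.init).card : ℝ) *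
          (E * (X : ℝ) ^ (ε / 2) * (Z : ℝ) ^ (2 / (k : ℝ))) := hsum
        _ ≤ (C₀ * (((2 ^ (j + 1) : ℕ)) : ℝ) ^ (2 / (k : ℝ) + ε / 4)) *
          (E * (X : ℝ) ^ (ε / 2) * (Z : ℝ) ^ (2 / (k : ℝ))) :=
            mul_le_mul_of_nonneg_right hpre (by positivity)
        _ = (C₀ * 2 ^ (2 / (k : ℝ) + ε / 4) * E) * ((((2 : ℝ) ^ j) ^ (2 / (k : ℝ)) *
              (Z : ℝ) ^ (2 / (k : ℝ))) * (((2 : ℝ) ^ j) ^ (ε / 4) * (X : ℝ) ^ (ε / 2))) := by
            rw [e1]; ring
        _ ≤ (C₀ * 2 ^ (2 / (k : ℝ) + ε / 4) * E) * ((X : ℝ) ^ (2 / (k : ℝ)) *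
              ((X : ℝ) ^ (ε / 4) * (X : ℝ) ^ (ε / 2))) := by
            apply mul_le_mul_of_nonneg_left _ (by positivity)
            apply mul_le_mul e2 _ (by positivity) (by positivity)
            exact mul_le_mul_of_nonneg_right e3 (by positivity)
        _ = B := by
            rw [hB, ← Real.rpow_add hX0, ← Real.rpow_add hX0]
            congr 2
            ring)
    rw [card_range] at hcov
    have hl : ((Nat.log 2 X + 1 : ℕ) : ℝ) ≤ C₁ * (X : ℝ) ^ (ε / 4) := by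
      refine le_trans ?_ (hlog X hX)
      push_cast
      linarith
    calc (Q.card : ℝ) ≤ ((Nat.log 2 X + 1 : ℕ) : ℝ) * B := hcov
      _ ≤ (C₁ * (X : ℝ) ^ (ε / 4)) * B := mul_le_mul_of_nonneg_right hl hB0
      _ = C₁ * (C₀ * 2 ^ (2 / (k : ℝ) + ε / 4) * E) *
          ((X : ℝ) ^ (ε / 4) * (X : ℝ) ^ (2 / (k : ℝ) + 3 * ε / 4)) := by rw [hB]; ring
      _ = _ := by
          rw [← Real.rpow_add hX0]
          congr 2
          ring

end Pool.Agent.H583.AL
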