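import Pool.Agent.H583.AL.B
import Pool.Agent.H583.AR.Points

/-!
The points off an arrangement with a connected spanning set of forms.
-/

set_option autoImplicit false

namespace Pool.Agent.H583.AL

open Finset Pool.Agent.T2H20.ABC Pool.Agent.T2H20.AH Pool.Agent.H785R2.ABC Pool.Agent.H583.SF
  Pool.Agent.H583.WT Pool.Agent.H583.AR

/-- two integers in terms of their reduced ratio -/
lemma scale2 {u v : ℤ} (hu : u ≠ 0) (hv : v ≠ 0) : ∃ g : ℤ, g ≠ 0 ∧
    u = g * ((u : ℚ) / v).num ∧ v = g * (((u : ℚ) / v).den : ℤ) := by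
  obtain ⟨r, hr⟩ : ∃ r : ℚ, r = (u : ℚ) / v := ⟨_, rfl⟩
  rw [← hr]
  have hv' : (v : ℚ) ≠ 0 := by exact_mod_cast hv
  have hmul : u * (r.den : ℤ) = v * r.num := by
    have h3 : (u : ℚ) = r * v := by rw [hr]; field_simp
    have h4 : (r.num : ℚ) = r * r.den := (Rat.mul_den_eq_num r).symm
    have h5 : (u : ℚ) * (r.den : ℚ) = (v : ℚ) * (r.num : ℚ) := by
      rw [h3, h4]; ring
    exact_mod_cast h5
  have hcop : IsCoprime (r.den : ℤ) r.num := by
    rw [Int.isCoprime_iff_gcd_eq_one, Int.gcd_comm]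
    exact r.reduced
  have hdvd : (r.den : ℤ) ∣ v := by
    apply hcop.dvd_of_dvd_mul_right
    rw [← hmul]
    exact Dvd.intro_left _ rfl
  obtain ⟨g, hg⟩ := hdvd
  have hden : (r.den : ℤ) ≠ 0 := by exact_mod_cast r.den_ne_zero
  refine ⟨g, ?_, ?_, by rw [hg]; ring⟩
  · rintro rfl
    exact hv (by rw [hg, mul_zero])
  · apply mul_right_cancel₀ hden
    rw [hmul, hg]
    ring

section

variable {n q k : ℕ}

/-- a tree of forms: the form `b (m + 1)` is joined to the form `b (p m)`, where `p m ≤ m`, by the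
relations of a pencil -/
structure Tr (L : Fin q → Fin (n + 1) → ℤ) (N : ℕ) (b : ℕ → Fin q) (p : ℕ → ℕ)
    (F : ℕ → Fin k → ℤ × ℤ) (f : ℕ → Fin k → Fin q) (c : ℕ → Fin k → ℤ) : Prop where
  par : ∀ m < N, p m ≤ m
  c0 : ∀ m < N, ∀ a, c m a ≠ 0
  F0 : ∀ m < N, ∀ a a', a ≠ a' → SF.det (F m) a a' ≠ 0
  rel : ∀ m < N, ∀ a l, c m a * L (f m a) l =
    (F m a).1 * L (b (m + 1)) l + (F m a).2 * L (b (p m)) l
  span : ∀ z : Fin (n + 1) → ℤ, (∀ m ≤ N, vl L z (b m) = 0) → z = 0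

/-- the ratio of the values of a form and of its parent -/
def rp (L : Fin q → Fin (n + 1) → ℤ) (b : ℕ → Fin q) (p : ℕ → ℕ) (x : Fin (n + 1) → ℤ) (m : ℕ) :
    ℤ × ℤ := (((vl L x (b (m + 1)) : ℚ) / vl L x (b (p m))).num,
      (((vl L x (b (m + 1)) : ℚ) / vl L x (b (p m))).den : ℤ))

/-- the sequence of the ratios -/
def sx (L : Fin q → Fin (n + 1) → ℤ) (N : ℕ) (b : ℕ → Fin q) (p : ℕ → ℕ) (x : Fin (n + 1) → ℤ) :
    Fin N → ℤ × ℤ := fun m => rp L b p x m

/-- the finite set of primes -/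
def S2 (S : Finset ℕ) (N : ℕ) (F : ℕ → Fin k → ℤ × ℤ) (c : ℕ → Fin k → ℤ) : Finset ℕ :=
  (S.filter Nat.Prime ∪ (range N ×ˢ (univ : Finset (Fin k × Fin k))).biUnion
    fun z => (SF.det (F z.1) z.2.1 z.2.2).natAbs.primeFactors) ∪
  (range N ×ˢ (univ : Finset (Fin k))).biUnion fun z => (c z.1 z.2).natAbs.primeFactors

variable {S : Finset ℕ} {N : ℕ} {F : ℕ → Fin k → ℤ × ℤ} {c : ℕ → Fin k → ℤ}
  {L : Fin q → Fin (n + 1) → ℤ} {b : ℕ → Fin q} {p : ℕ → ℕ} {f : ℕ → Fin k → Fin q}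

lemma S2_prime {r : ℕ} (h : r ∈ S2 S N F c) : r.Prime := by
  unfold S2 at h
  rw [mem_union, mem_union, mem_filter, mem_biUnion, mem_biUnion] at h
  rcases h with (h | ⟨z, -, h⟩) | ⟨z, -, h⟩
  · exact h.2
  · exact Nat.prime_of_mem_primeFactors h
  · exact Nat.prime_of_mem_primeFactors h

lemma S2_det (m : ℕ) (hm : m < N) (a a' : Fin k) :
    (SF.det (F m) a a').natAbs.primeFactors ⊆ S2 S N F c := by
  intro r hr
  unfold S2
  rw [mem_union, mem_union]
  exact Or.inl (Or.inr (mem_biUnion.2 ⟨(m, a, a'),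
    mem_product.2 ⟨mem_range.2 hm, mem_univ _⟩, hr⟩))

lemma S2_c (m : ℕ) (hm : m < N) (a : Fin k) : (c m a).natAbs.primeFactors ⊆ S2 S N F c := by
  intro r hr
  unfold S2
  rw [mem_union]
  exact Or.inr (mem_biUnion.2 ⟨(m, a), mem_product.2 ⟨mem_range.2 hm, mem_univ _⟩, hr⟩)

lemma S2_S {r : ℕ} (hr : r.Prime) (h : r ∉ S2 S N F c) : r ∉ S := by
  intro hS
  apply h
  unfold S2
  rw [mem_union, mem_union]
  exact Or.inl (Or.inl (mem_filter.2 ⟨hS, hr⟩))

lemma rp_scale (H : Tr L N b p F f c) {x : Fin (n + 1) → ℤ} (h0 : ∀ i, vl L x i ≠ 0) {m : ℕ}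
    (hm : m < N) : ∃ g : ℤ, g ≠ 0 ∧ ∀ a : Fin k,
      c m a * vl L x (f m a) = g * SF.val (F m) a (rp L b p x m) := by
  obtain ⟨g, hg, h1, h2⟩ := scale2 (h0 (b (m + 1))) (h0 (b (p m)))
  refine ⟨g, hg, fun a => ?_⟩
  have h3 : c m a * vl L x (f m a) = (F m a).1 * vl L x (b (m + 1)) +
      (F m a).2 * vl L x (b (p m)) := by
    unfold vl
    rw [Finset.mul_sum, Finset.mul_sum, Finset.mul_sum, ← Finset.sum_add_distrib]
    apply Finset.sum_congr rfl
    intro l _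
    rw [← mul_assoc, H.rel m hm a l]
    ring
  rw [h3]
  unfold SF.val rp
  linear_combination (F m a).1 * h1 + (F m a).2 * h2

lemma val_ne' (H : Tr L N b p F f c) {x : Fin (n + 1) → ℤ} (h0 : ∀ i, vl L x i ≠ 0) {m : ℕ}
    (hm : m < N) (a : Fin k) : SF.val (F m) a (rp L b p x m) ≠ 0 := by
  obtain ⟨g, hg, h1⟩ := rp_scale H h0 hm
  intro h2
  have h3 := h1 a
  rw [h2, mul_zero] at h3
  exact mul_ne_zero (H.c0 m hm a) (h0 _) h3

lemma fp_ne (H : Tr L N b p F f c) {x : Fin (n + 1) → ℤ} (h0 : ∀ i, vl L x i ≠ 0) {m : ℕ}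
    (hm : m < N) : fp (F m) (rp L b p x m) ≠ 0 := by
  unfold fp
  exact Finset.prod_ne_zero_iff.2 fun a _ => val_ne' H h0 hm a

lemma rp_coprime (x : Fin (n + 1) → ℤ) (m : ℕ) :
    IsCoprime (rp L b p x m).1 (rp L b p x m).2 := by
  unfold rp
  rw [Int.isCoprime_iff_gcd_eq_one]
  exact ((vl L x (b (m + 1)) : ℚ) / vl L x (b (p m))).reduced

/-- the bad primes divide a value of a form -/
lemma bs_sub (H : Tr L N b p F f c) {x : Fin (n + 1) → ℤ} (h0 : ∀ i, vl L x i ≠ 0) (S : Finset ℕ) :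
    bs (S2 S N F c) F (sx L N b p x) ⊆ (∏ i, vl L x i).natAbs.primeFactors \ S := by
  intro r hr
  have hrp := bs_prime hr
  obtain ⟨m, -, h⟩ := mem_biUnion.1 hr
  rw [mem_sdiff] at h
  obtain ⟨h1, h2⟩ := h
  rw [mem_sdiff]
  refine ⟨?_, S2_S hrp h2⟩
  have h3 : r ∣ (fp (F m) (sx L N b p x m)).natAbs := Nat.dvd_of_mem_primeFactors h1
  have h4 : (r : ℤ) ∣ fp (F m) (rp L b p x m) := Int.natCast_dvd.2 h3
  unfold fp at h4
  obtain ⟨a, -, ha⟩ := ((Nat.prime_iff_prime_int.1 hrp).dvd_finsetProd_iff _).1 h4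
  obtain ⟨g, hg, h5⟩ := rp_scale H h0 m.isLt
  have h6 : (r : ℤ) ∣ c m a * vl L x (f m a) := by
    rw [h5 a]
    exact Dvd.dvd.mul_left ha g
  rcases (Nat.prime_iff_prime_int.1 hrp).dvd_or_dvd h6 with h7 | h7
  · exfalso
    apply h2
    apply S2_c (m : ℕ) m.isLt a
    exact Nat.mem_primeFactors.2 ⟨hrp, Int.natCast_dvd.1 h7,
      Int.natAbs_ne_zero.2 (H.c0 m m.isLt a)⟩
  · rw [Nat.mem_primeFactors]
    refine ⟨hrp, Int.natCast_dvd.1 (h7.trans (Finset.dvd_prod_of_mem _ (mem_univ _))), ?_⟩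
    exact Int.natAbs_ne_zero.2 (Finset.prod_ne_zero_iff.2 fun i _ => h0 i)

/-- a point is determined by the ratios up to the sign -/
lemma sx_inj (H : Tr L N b p F f c) {x y : Fin (n + 1) → ℤ} (hx : univ.gcd x = 1)
    (hy : univ.gcd y = 1) (h0 : ∀ i, vl L x i ≠ 0) (h0' : ∀ i, vl L y i ≠ 0)
    (h : sx L N b p x = sx L N b p y) : y = x ∨ y = -x := by
  obtain ⟨u, hu⟩ : ∃ u, u = vl L x (b 0) := ⟨_, rfl⟩
  obtain ⟨v, hv⟩ : ∃ v, v = vl L y (b 0) := ⟨_, rfl⟩
  have hu0 : u ≠ 0 := by rw [hu]; exact h0 _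
  have hv0 : v ≠ 0 := by rw [hv]; exact h0' _
  have h1 : ∀ m ≤ N, v * vl L x (b m) = u * vl L y (b m) := by
    intro m
    induction m using Nat.strong_induction_on with
    | _ m ih =>
      intro hm
      rcases Nat.eq_zero_or_pos m with rfl | hpos
      · rw [← hu, ← hv, mul_comm]
      obtain ⟨j, rfl⟩ : ∃ j, m = j + 1 := ⟨m - 1, by omega⟩
      have hj : j < N := by omega
      have h2 := congrFun h ⟨j, hj⟩
      unfold sx rp at h2
      simp only [Prod.mk.injEq, Nat.cast_inj] at h2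
      have h3 : (vl L x (b (j + 1)) : ℚ) / vl L x (b (p j)) =
          (vl L y (b (j + 1)) : ℚ) / vl L y (b (p j)) := Rat.ext h2.1 h2.2
      have hxp := h0 (b (p j))
      have hyp := h0' (b (p j))
      rw [div_eq_div_iff (by exact_mod_cast hxp) (by exact_mod_cast hyp)] at h3
      have h4 : vl L x (b (j + 1)) * vl L y (b (p j)) = vl L y (b (j + 1)) * vl L x (b (p j)) := by
        exact_mod_cast h3
      have hpj := H.par j hj
      have h5 := ih (p j) (by omega) (by omega)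
      apply mul_right_cancel₀ hyp
      calc v * vl L x (b (j + 1)) * vl L y (b (p j)) =
            v * (vl L x (b (j + 1)) * vl L y (b (p j))) := by ring
        _ = v * (vl L y (b (j + 1)) * vl L x (b (p j))) := by rw [h4]
        _ = vl L y (b (j + 1)) * (v * vl L x (b (p j))) := by ring
        _ = vl L y (b (j + 1)) * (u * vl L y (b (p j))) := by rw [h5]
        _ = _ := by ring
  have h2 := H.span (fun l => v * x l - u * y l) (by
    intro m hm
    have : vl L (fun l => v * x l - u * y l) (b m) = v * vl L x (b m) - u * vl L y (b m) := by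
      unfold vl
      rw [Finset.mul_sum, Finset.mul_sum, ← Finset.sum_sub_distrib]
      exact Finset.sum_congr rfl fun l _ => by ring
    rw [this, h1 m hm, sub_self])
  have h4 : ∀ l, v * x l = u * y l := fun l => by
    have := congrFun h2 l
    simp only [Pi.zero_apply] at this
    linarith
  have h5 : univ.gcd (fun l => v * x l) = univ.gcd (fun l => u * y l) := by
    congr 1
    funext l
    exact h4 l
  rw [Finset.gcd_mul_left, Finset.gcd_mul_left, hx, hy, mul_one, mul_one] at h5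
  have h6 : |v| = |u| := by
    rw [Int.abs_eq_normalize, Int.abs_eq_normalize]
    exact h5
  rcases abs_eq_abs.1 h6 with h7 | h7
  · left
    funext l
    have := h4 l
    rw [h7] at this
    exact (mul_left_cancel₀ hu0 this).symm
  · right
    funext l
    have := h4 l
    rw [h7] at this
    have h8 : u * (-x l) = u * y l := by linarith
    have h9 := mul_left_cancel₀ hu0 h8
    rw [Pi.neg_apply]
    exact h9.symm

open Classical in
/-- **the points off an arrangement** -/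
theorem pointsA (hk : 3 ≤ k) (H : Tr L N b p F f c) (S : Finset ℕ) (ε : ℝ) (hε : 0 < ε) :
    ∃ C : ℝ, 0 < C ∧ ∀ X : ℝ, 1 ≤ X → ∀ Q : Finset (Fin (n + 1) → ℤ),
    (∀ x ∈ Q, univ.gcd x = 1 ∧ (∀ i, vl L x i ≠ 0) ∧ (rd S L x : ℝ) ≤ X) →
    (Q.card : ℝ) ≤ C * X ^ (2 / (k : ℝ) + ε) := by
  obtain ⟨C, hC, h⟩ := seqs k hk F (S2 S N F c) (fun r hr => S2_prime hr) N
    (fun m hm a a' haa => H.F0 m hm a a' haa) (fun m hm a a' _ => S2_det m hm a a') ε hε
  have hk0 : (0 : ℝ) < k := by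
    have : 0 < k := by omega
    exact_mod_cast this
  refine ⟨2 * C, by positivity, ?_⟩
  intro X hX Q hQ
  have hX0 : (0 : ℝ) < X := by linarith
  have hfib : Q.card ≤ 2 * (Q.image (sx L N b p)).card := by
    apply Finset.card_le_mul_card_image
    intro t ht
    rw [mem_image] at ht
    obtain ⟨x0, hx0, rfl⟩ := ht
    have hsub : (Q.filter fun x => sx L N b p x = sx L N b p x0) ⊆ {x0, -x0} := by
      intro y hy
      rw [mem_filter] at hy
      obtain ⟨g1, g2, -⟩ := hQ x0 hx0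
      obtain ⟨g1', g2', -⟩ := hQ y hy.1
      rw [mem_insert, mem_singleton]
      exact sx_inj H g1 g1' g2 g2' hy.2.symm
    exact (card_le_card hsub).trans Finset.card_le_two
  have h1 := h ⌊X⌋₊ (Nat.le_floor (by exact_mod_cast hX)) (Q.image (sx L N b p)) (by
    intro t ht
    rw [mem_image] at ht
    obtain ⟨x, hxQ, rfl⟩ := ht
    obtain ⟨g1, g2, g3⟩ := hQ x hxQ
    refine ⟨fun m => ⟨rp_coprime x m, fp_ne H g2 m.isLt⟩, ?_⟩
    refine le_trans ?_ (Nat.le_floor g3)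
    unfold Rs AR.rd
    apply Finset.prod_le_prod_of_subset_of_one_le' (bs_sub H g2 S)
    intro r hr _
    exact (Nat.prime_of_mem_primeFactors (mem_sdiff.1 hr).1).one_lt.le)
  have h2 : (Q.card : ℝ) ≤ 2 * ((Q.image (sx L N b p)).card : ℝ) := by exact_mod_cast hfib
  refine h2.trans ?_
  rw [mul_assoc]
  refine mul_le_mul_of_nonneg_left (h1.trans ?_) (by norm_num)
  apply mul_le_mul_of_nonneg_left _ hC.le
  exact Real.rpow_le_rpow (Nat.cast_nonneg _) (Nat.floor_le hX0.le) (by positivity)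

end

end Pool.Agent.H583.AL
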