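import Pool.Agent.H583.AL.C

/-!
Ordering a connected set along a tree.
-/

set_option autoImplicit false

namespace Pool.Agent.H583.AL

open Finset

section

variable {α : Type} {R : α → α → Prop} {r : α}

/-- an enumeration along a tree with root `r` -/
def Good (R : α → α → Prop) (r : α) (N : ℕ) (b : ℕ → α) (p : ℕ → ℕ) : Prop :=
  b 0 = r ∧ ∀ m < N, p m ≤ m ∧ R (b (p m)) (b (m + 1))

/-- one more element -/
lemma good_add {t : α} (h : Relation.ReflTransGen R r t) : ∀ (N : ℕ) (b : ℕ → α) (p : ℕ → ℕ),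
    Good R r N b p → ∃ (N' : ℕ) (b' : ℕ → α) (p' : ℕ → ℕ), Good R r N' b' p' ∧
      (∀ s, (∃ m ≤ N, b m = s) → ∃ m ≤ N', b' m = s) ∧ ∃ m ≤ N', b' m = t := by
  induction h with
  | refl =>
    intro N b p h
    exact ⟨N, b, p, h, fun s hs => hs, 0, Nat.zero_le _, h.1⟩
  | @tail u t _ hR ih =>
    intro N b p h
    obtain ⟨N', b', p', h1, h2, m, hm, h3⟩ := ih N b p h
    refine ⟨N' + 1, fun i => if i ≤ N' then b' i else t, fun i => if i < N' then p' i else m,
      ⟨?_, ?_⟩, ?_, N' + 1, le_rfl, ?_⟩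
    · simp only
      rw [if_pos (Nat.zero_le _)]
      exact h1.1
    · intro i hi
      simp only
      by_cases hiN : i < N'
      · obtain ⟨g1, g2⟩ := h1.2 i hiN
        rw [if_pos hiN, if_pos (by omega : p' i ≤ N'), if_pos (by omega : i + 1 ≤ N')]
        exact ⟨g1, g2⟩
      · have : i = N' := by omega
        subst this
        rw [if_neg hiN, if_pos hm, if_neg (by omega : ¬ i + 1 ≤ i), h3]
        exact ⟨hm, hR⟩
    · intro s hs
      obtain ⟨i, hi, h4⟩ := h2 s hs
      refine ⟨i, by omega, ?_⟩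
      simp only
      rw [if_pos hi]
      exact h4
    · simp only
      rw [if_neg (by omega)]

/-- all elements of a finite set -/
lemma good_set (T : Finset α) (hT : ∀ t ∈ T, Relation.ReflTransGen R r t) :
    ∃ (N : ℕ) (b : ℕ → α) (p : ℕ → ℕ), Good R r N b p ∧ ∀ t ∈ T, ∃ m ≤ N, b m = t := by
  classical
  induction T using Finset.induction_on with
  | empty =>
    exact ⟨0, fun _ => r, fun _ => 0, ⟨rfl, fun m hm => absurd hm (Nat.not_lt_zero m)⟩,
      fun t ht => absurd ht (notMem_empty t)⟩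
  | insert a T ha ih =>
    obtain ⟨N, b, p, h1, h2⟩ := ih fun t ht => hT t (mem_insert_of_mem ht)
    obtain ⟨N', b', p', h3, h4, h5⟩ := good_add (hT a (mem_insert_self a T)) N b p h1
    refine ⟨N', b', p', h3, ?_⟩
    intro t ht
    rcases mem_insert.1 ht with rfl | ht
    · exact h5
    · exact h4 t (h2 t ht)

end

end Pool.Agent.H583.AL
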